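import Pool.Agent.helper95.FJ.SpecD

/-!
# Project fj (MP_ad8ced_nt), row GPL: large conductors, sum over the pairs
-/

set_option autoImplicit false

open Finset

noncomputable section

namespace Pool.Agent.FJ

open Pool.Agent.FI

open scoped Classical in
theorem GPL_D (hPLX : PLX_stmt) (hCNV : CNV_stmt) (x K₃ K₄ R₁ : ℕ) (lam : ℤ → ℝ) (D : ℕ) (hD : 1 ≤ D) :
    ∑ ω ∈ range D with Nat.Coprime ω D, ∑ m ∈ Ioo (-((K₃ * K₄ : ℕ) : ℤ)) ((K₃ * K₄ : ℕ) : ℤ),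
        (∑ b ∈ range K₃, EgL x K₃ K₄ R₁ lam b m D (ω : ℤ)) ^ 2 ≤
      K₃ * (1 / (Nat.totient D : ℝ) * ∑ χ : DirichletCharacter ℂ D with R₁ < χ.conductor,
        ∑ b ∈ range K₃, ∑ j ∈ range (2 * (K₃ * K₄)), ‖Hc x K₃ K₄ lam b j χ‖ ^ 2) := by
  have h1 : ∀ (ω : ℕ) (m : ℤ), (∑ b ∈ range K₃, EgL x K₃ K₄ R₁ lam b m D (ω : ℤ)) ^ 2 ≤
      (K₃ : ℝ) * ∑ b ∈ range K₃, EgL x K₃ K₄ R₁ lam b m D (ω : ℤ) ^ 2 := by
    intro ω m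
    have := sq_sum_le_card_mul_sum_sq (s := range K₃) (f := fun b => EgL x K₃ K₄ R₁ lam b m D (ω : ℤ))
    rwa [card_range] at this
  have h2 : ∀ (b : ℕ), b ∈ range K₃ → ∀ χ : DirichletCharacter ℂ D,
      ∑ m ∈ Ioo (-((K₃ * K₄ : ℕ) : ℤ)) ((K₃ * K₄ : ℕ) : ℤ), ‖Gc x K₃ K₄ lam b m χ‖ ^ 2 =
        ∑ j ∈ range (2 * (K₃ * K₄)), ‖Hc x K₃ K₄ lam b j χ‖ ^ 2 := by
    intro b hb χ
    have hI : Ico (b * K₄) ((b + 1) * K₄) ⊆ range (K₃ * K₄) := by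
      intro i hi
      rw [mem_Ico] at hi
      rw [mem_range]
      have hb2 : b + 1 ≤ K₃ := mem_range.1 hb
      exact lt_of_lt_of_le hi.2 (Nat.mul_le_mul_right _ hb2)
    exact hCNV (K₃ * K₄) (Ico (b * K₄) ((b + 1) * K₄)) (fun i => Fc x (K₃ * K₄) lam χ i) hI
  have h3 : ∀ (b : ℕ) (m : ℤ), ∑ ω ∈ range D with Nat.Coprime ω D, EgL x K₃ K₄ R₁ lam b m D (ω : ℤ) ^ 2 =
      1 / (Nat.totient D : ℝ) * ∑ χ : DirichletCharacter ℂ D with R₁ < χ.conductor, ‖Gc x K₃ K₄ lam b m χ‖ ^ 2 :=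
    fun b m => hPLX.1 x K₃ K₄ R₁ lam b m D hD
  calc ∑ ω ∈ range D with Nat.Coprime ω D, ∑ m ∈ Ioo (-((K₃ * K₄ : ℕ) : ℤ)) ((K₃ * K₄ : ℕ) : ℤ),
        (∑ b ∈ range K₃, EgL x K₃ K₄ R₁ lam b m D (ω : ℤ)) ^ 2
      ≤ ∑ ω ∈ range D with Nat.Coprime ω D, ∑ m ∈ Ioo (-((K₃ * K₄ : ℕ) : ℤ)) ((K₃ * K₄ : ℕ) : ℤ),
        (K₃ : ℝ) * ∑ b ∈ range K₃, EgL x K₃ K₄ R₁ lam b m D (ω : ℤ) ^ 2 :=
          Finset.sum_le_sum fun ω _ => Finset.sum_le_sum fun m _ => h1 ω m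
    _ = (K₃ : ℝ) * ∑ ω ∈ range D with Nat.Coprime ω D, ∑ m ∈ Ioo (-((K₃ * K₄ : ℕ) : ℤ)) ((K₃ * K₄ : ℕ) : ℤ),
        ∑ b ∈ range K₃, EgL x K₃ K₄ R₁ lam b m D (ω : ℤ) ^ 2 := by
          rw [Finset.mul_sum]
          exact Finset.sum_congr rfl fun ω _ => by rw [Finset.mul_sum]
    _ = (K₃ : ℝ) * ∑ m ∈ Ioo (-((K₃ * K₄ : ℕ) : ℤ)) ((K₃ * K₄ : ℕ) : ℤ), ∑ b ∈ range K₃,
        ∑ ω ∈ range D with Nat.Coprime ω D, EgL x K₃ K₄ R₁ lam b m D (ω : ℤ) ^ 2 := by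
          rw [Finset.sum_comm]
          refine congrArg (fun z => (K₃ : ℝ) * z) ?_
          exact Finset.sum_congr rfl fun m _ => Finset.sum_comm
    _ = (K₃ : ℝ) * ∑ m ∈ Ioo (-((K₃ * K₄ : ℕ) : ℤ)) ((K₃ * K₄ : ℕ) : ℤ), ∑ b ∈ range K₃,
        1 / (Nat.totient D : ℝ) * ∑ χ : DirichletCharacter ℂ D with R₁ < χ.conductor, ‖Gc x K₃ K₄ lam b m χ‖ ^ 2 := by
          refine congrArg (fun z => (K₃ : ℝ) * z) ?_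
          exact Finset.sum_congr rfl fun m _ => Finset.sum_congr rfl fun b _ => h3 b m
    _ = (K₃ : ℝ) * (1 / (Nat.totient D : ℝ) * ∑ m ∈ Ioo (-((K₃ * K₄ : ℕ) : ℤ)) ((K₃ * K₄ : ℕ) : ℤ), ∑ b ∈ range K₃,
        ∑ χ : DirichletCharacter ℂ D with R₁ < χ.conductor, ‖Gc x K₃ K₄ lam b m χ‖ ^ 2) := by
          refine congrArg (fun z => (K₃ : ℝ) * z) ?_
          rw [Finset.mul_sum]
          exact Finset.sum_congr rfl fun m _ => by rw [Finset.mul_sum]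
    _ = (K₃ : ℝ) * (1 / (Nat.totient D : ℝ) * ∑ χ : DirichletCharacter ℂ D with R₁ < χ.conductor, ∑ b ∈ range K₃,
        ∑ m ∈ Ioo (-((K₃ * K₄ : ℕ) : ℤ)) ((K₃ * K₄ : ℕ) : ℤ), ‖Gc x K₃ K₄ lam b m χ‖ ^ 2) := by
          refine congrArg (fun z => (K₃ : ℝ) * (1 / (Nat.totient D : ℝ) * z)) ?_
          rw [Finset.sum_comm, Finset.sum_congr rfl fun b _ => Finset.sum_comm, Finset.sum_comm]
    _ = _ := by
          refine congrArg (fun z => (K₃ : ℝ) * (1 / (Nat.totient D : ℝ) * z)) ?_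
          exact Finset.sum_congr rfl fun χ _ => Finset.sum_congr rfl fun b hb => h2 b hb χ

open scoped Classical in
theorem GPL_odd {N : ℕ} {z : ℤ × ℤ} (hz : z ∈ ZD N) : z.1 % 2 = 1 ∧ IsCoprime z.1 z.2 := by
  obtain ⟨h1, h2, h3⟩ := Finset.mem_filter.1 (show z ∈ {z ∈ FF (2 * N) | N < nn z ∧ IsCoprime z.1 z.2} from hz)
  obtain ⟨_, h6, _⟩ := Finset.mem_filter.1
    (show z ∈ {z ∈ Icc (-(2 * (2 * N : ℕ) : ℤ)) (2 * (2 * N : ℕ)) ×ˢ Icc (-(2 * (2 * N : ℕ) : ℤ)) (2 * (2 * N : ℕ)) |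
      Fd z ∧ nn z ≤ 2 * N} from h1)
  exact ⟨h6.1, h3⟩

open scoped Classical in
theorem GPL_one (hCSF : CSF_stmt) (hPLX : PLX_stmt) (hCNV : CNV_stmt) (C₁ C₂ : ℝ) (C₃ : ℕ) (h1 : 0 < C₁) (h2 : 0 < C₂)
    (om : ℕ → ℤ × ℤ → ℤ × ℤ → ℤ) (hom : OmOK om) (x N A K₁ K₃ K₄ R₁ : ℕ) (hx : 1 ≤ x)
    (hP : (#(Pr x N A K₁) : ℝ) ≤ C₁ * (N * (N * A / x + 1)))
    (hM : ∀ p ∈ Pr x N A K₁, (#(Mz x (K₃ * K₄) A p.1 p.2) : ℝ) ≤ C₂ * (1 + (A : ℝ) ^ 2 * (K₃ * K₄) / x ^ 2))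
    (e : ℕ) (he : e = 1 ∨ e = 2)
    (hK : ∀ p ∈ Pr x N A K₁, #{p' ∈ Pr x N A K₁ | (dl p'.1 p'.2).natAbs = (dl p.1 p.2).natAbs ∧
      ((e * (dl p.1 p.2).natAbs : ℕ) : ℤ) ∣ om e p.1 p.2 - om e p'.1 p'.2 ∧
        (Mz x (K₃ * K₄) A p.1 p.2 ∩ Mz x (K₃ * K₄) A p'.1 p'.2).Nonempty} ≤ C₃) (lam : ℤ → ℝ) :
    ∑ p ∈ Pr x N A K₁, ∑ m ∈ Mz x (K₃ * K₄) A p.1 p.2, ∑ b ∈ range K₃,
      EgL x K₃ K₄ R₁ lam b m (e * (dl p.1 p.2).natAbs) (om e p.1 p.2)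
    ≤ √(C₁ * C₂ * C₃) * √(N * (N * A / x + 1) * (1 + (A : ℝ) ^ 2 * (K₃ * K₄) / x ^ 2)) *
      √(K₃ * ∑ D ∈ Icc 1 (2 * N * A / x), 1 / (Nat.totient D : ℝ) * ∑ χ : DirichletCharacter ℂ D with R₁ < χ.conductor,
          ∑ b ∈ range K₃, ∑ j ∈ range (2 * (K₃ * K₄)), ‖Hc x K₃ K₄ lam b j χ‖ ^ 2) := by
  have he1 : 1 ≤ e := by rcases he with h | h <;> omega
  have he2 : e ≤ 2 := by rcases he with h | h <;> omega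
  have hB : 0 ≤ 1 + (A : ℝ) ^ 2 * (K₃ * K₄) / x ^ 2 := by positivity
  have key := hCSF ((ℤ × ℤ) × (ℤ × ℤ)) (Pr x N A K₁) (fun p => e * (dl p.1 p.2).natAbs) (fun p => om e p.1 p.2)
    (fun p => Mz x (K₃ * K₄) A p.1 p.2) (fun D ω m => ∑ b ∈ range K₃, EgL x K₃ K₄ R₁ lam b m D ω)
    (2 * N * A / x) (K₃ * K₄) (C₂ * (1 + (A : ℝ) ^ 2 * (K₃ * K₄) / x ^ 2)) C₃ (by positivity) (by positivity)
    (fun D ω m => Finset.sum_nonneg fun b _ => by unfold EgL; exact norm_nonneg _)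
    (fun D ω ω' m h => Finset.sum_congr rfl fun b _ => hPLX.2 x K₃ K₄ R₁ lam b m D ω ω' h) ?_ ?_
  · refine key.trans ?_
    have hsq : √(C₁ * C₂ * C₃) * √(N * (N * A / x + 1) * (1 + (A : ℝ) ^ 2 * (K₃ * K₄) / x ^ 2)) =
        √(C₁ * C₂ * C₃ * (N * (N * A / x + 1) * (1 + (A : ℝ) ^ 2 * (K₃ * K₄) / x ^ 2))) :=
      (Real.sqrt_mul (by positivity) _).symm
    rw [hsq]
    refine mul_le_mul (Real.sqrt_le_sqrt ?_) (Real.sqrt_le_sqrt ?_) (Real.sqrt_nonneg _) (Real.sqrt_nonneg _)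
    · calc (#(Pr x N A K₁) : ℝ) * (C₂ * (1 + (A : ℝ) ^ 2 * (K₃ * K₄) / x ^ 2)) * C₃
          ≤ (C₁ * (N * (N * A / x + 1))) * (C₂ * (1 + (A : ℝ) ^ 2 * (K₃ * K₄) / x ^ 2)) * C₃ := by
            refine mul_le_mul_of_nonneg_right (mul_le_mul_of_nonneg_right hP (by positivity)) (by positivity)
        _ = C₁ * C₂ * C₃ * (N * (N * A / x + 1) * (1 + (A : ℝ) ^ 2 * (K₃ * K₄) / x ^ 2)) := by ring
    · rw [Finset.mul_sum]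
      refine Finset.sum_le_sum fun D hD => ?_
      exact GPL_D hPLX hCNV x K₃ K₄ R₁ lam D (mem_Icc.1 hD).1
  · intro p hp
    obtain ⟨hpz, hp1, hp2⟩ := Finset.mem_filter.1 (show p ∈ {p ∈ ZD N ×ˢ ZD N |
      N * A < K₁ * (x * (dl p.1 p.2).natAbs) ∧ x * (dl p.1 p.2).natAbs ≤ N * A} from hp)
    obtain ⟨hz, hz'⟩ := mem_product.1 hpz
    have hdl : dl p.1 p.2 ≠ 0 := by
      intro h
      rw [h] at hp1
      simp at hp1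
    have hpos : 0 < (dl p.1 p.2).natAbs := Int.natAbs_pos.2 hdl
    refine ⟨?_, ?_, ?_, ?_, hM p hp⟩
    · exact Nat.mul_pos he1 hpos
    · rw [Nat.le_div_iff_mul_le hx]
      calc e * (dl p.1 p.2).natAbs * x ≤ 2 * (dl p.1 p.2).natAbs * x :=
            Nat.mul_le_mul_right _ (Nat.mul_le_mul_right _ he2)
        _ = 2 * (x * (dl p.1 p.2).natAbs) := by ring
        _ ≤ 2 * (N * A) := Nat.mul_le_mul_left _ hp2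
        _ = 2 * N * A := by ring
    · have h5 := (hom e he p.1 p.2 (GPL_odd hz).1 (GPL_odd hz').1 (GPL_odd hz).2 (GPL_odd hz').2 hdl).1
      show IsCoprime (om e p.1 p.2) ((e * (dl p.1 p.2).natAbs : ℕ) : ℤ)
      rw [Nat.cast_mul]
      rcases Int.natAbs_eq (dl p.1 p.2) with h6 | h6
      · rwa [← h6]
      · have h7 : (e : ℤ) * ((dl p.1 p.2).natAbs : ℤ) = -(e * dl p.1 p.2) := by
          rw [← mul_neg]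
          congr 1
          omega
        rw [h7]
        exact h5.neg_right
    · intro m hm
      have hm' : m ∈ Mz x (K₃ * K₄) A p.1 p.2 := hm
      unfold Mz at hm'
      exact (Finset.mem_filter.1 hm').1
  · intro p hp
    refine Nat.cast_le.2 (le_trans (Finset.card_le_card fun p' hp' => ?_) (hK p hp))
    rw [Finset.mem_filter] at hp' ⊢
    refine ⟨hp'.1, ?_, hp'.2.2.1, hp'.2.2.2⟩
    exact Nat.eq_of_mul_eq_mul_left he1 hp'.2.1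

open scoped Classical in
theorem GPL (hPAI : PAI_stmt) (hCMZ : CMZ_stmt) (hKIJ : KIJ_stmt) (hCSF : CSF_stmt) (hPLX : PLX_stmt) (hCNV : CNV_stmt) : GPL_stmt := by
  obtain ⟨C₁, h1, hP⟩ := hPAI
  obtain ⟨C₂, h2, hM⟩ := hCMZ
  obtain ⟨C₃, hK⟩ := hKIJ
  refine ⟨2 * √(C₁ * C₂ * C₃) + 1, by positivity, fun om hom x N A K₁ K₃ K₄ R₁ hx hN hA hK₃ hK₄ lam => ?_⟩
  have hxr : (0 : ℝ) < x := by exact_mod_cast hx
  have hKK : 1 ≤ K₃ * K₄ := Nat.mul_pos hK₃ hK₄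
  have hcard : (#(Pr x N A K₁) : ℝ) ≤ C₁ * (N * (N * A / x + 1)) := by
    have h3 := hP N (N * A / x) hN
    have h4 : (#(Pr x N A K₁) : ℝ) ≤ (#{p ∈ ZD N ×ˢ ZD N | |dl p.1 p.2| ≤ ((N * A / x : ℕ) : ℤ)} : ℝ) := by
      refine Nat.cast_le.2 (Finset.card_le_card fun p hp => ?_)
      obtain ⟨hpz, hp1, hp2⟩ := Finset.mem_filter.1 (show p ∈ {p ∈ ZD N ×ˢ ZD N |
        N * A < K₁ * (x * (dl p.1 p.2).natAbs) ∧ x * (dl p.1 p.2).natAbs ≤ N * A} from hp)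
      rw [Finset.mem_filter]
      refine ⟨hpz, ?_⟩
      rw [← Int.natCast_natAbs, Nat.cast_le, Nat.le_div_iff_mul_le hx, mul_comm]
      exact hp2
    refine h4.trans (h3.trans ?_)
    rw [mul_assoc]
    refine mul_le_mul_of_nonneg_left ?_ h1.le
    refine mul_le_mul_of_nonneg_left ?_ (Nat.cast_nonneg N)
    have h5 : ((N * A / x : ℕ) : ℝ) ≤ ((N * A : ℕ) : ℝ) / x := Nat.cast_div_le
    rw [Nat.cast_mul] at h5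
    linarith
  have hM' : ∀ p ∈ Pr x N A K₁, (#(Mz x (K₃ * K₄) A p.1 p.2) : ℝ) ≤ C₂ * (1 + (A : ℝ) ^ 2 * (K₃ * K₄) / x ^ 2) := by
    intro p hp
    have h3 := hM x N A K₁ (K₃ * K₄) hx hN hKK p hp
    rwa [Nat.cast_mul] at h3
  have hone : ∀ e : ℕ, e = 1 ∨ e = 2 → ∑ p ∈ Pr x N A K₁, ∑ m ∈ Mz x (K₃ * K₄) A p.1 p.2, ∑ b ∈ range K₃,
      EgL x K₃ K₄ R₁ lam b m (e * (dl p.1 p.2).natAbs) (om e p.1 p.2)
    ≤ √(C₁ * C₂ * C₃) * √(N * (N * A / x + 1) * (1 + (A : ℝ) ^ 2 * (K₃ * K₄) / x ^ 2)) *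
      √(K₃ * ∑ D ∈ Icc 1 (2 * N * A / x), 1 / (Nat.totient D : ℝ) * ∑ χ : DirichletCharacter ℂ D with R₁ < χ.conductor,
          ∑ b ∈ range K₃, ∑ j ∈ range (2 * (K₃ * K₄)), ‖Hc x K₃ K₄ lam b j χ‖ ^ 2) := by
    intro e he
    exact GPL_one hCSF hPLX hCNV C₁ C₂ C₃ h1 h2 om hom x N A K₁ K₃ K₄ R₁ hx hcard hM' e he
      (fun p hp => hK om hom x N A K₁ (K₃ * K₄) hx hN hA hKK e he p hp) lam
  have hsplit : ∑ p ∈ Pr x N A K₁, ∑ b ∈ range K₃, ∑ m ∈ Mz x (K₃ * K₄) A p.1 p.2, ∑ e ∈ ({1, 2} : Finset ℕ),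
      EgL x K₃ K₄ R₁ lam b m (e * (dl p.1 p.2).natAbs) (om e p.1 p.2) =
      ∑ e ∈ ({1, 2} : Finset ℕ), ∑ p ∈ Pr x N A K₁, ∑ m ∈ Mz x (K₃ * K₄) A p.1 p.2, ∑ b ∈ range K₃,
        EgL x K₃ K₄ R₁ lam b m (e * (dl p.1 p.2).natAbs) (om e p.1 p.2) := by
    rw [Finset.sum_comm (s := ({1, 2} : Finset ℕ))]
    refine Finset.sum_congr rfl fun p _ => ?_
    rw [Finset.sum_comm, Finset.sum_comm (s := ({1, 2} : Finset ℕ))]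
    refine Finset.sum_congr rfl fun m _ => ?_
    rw [Finset.sum_comm]
  rw [hsplit, Finset.sum_pair (by norm_num)]
  have g1 := hone 1 (Or.inl rfl)
  have g2 := hone 2 (Or.inr rfl)
  have g3 : 0 ≤ √(N * (N * A / x + 1) * (1 + (A : ℝ) ^ 2 * (K₃ * K₄) / x ^ 2)) *
      √(K₃ * ∑ D ∈ Icc 1 (2 * N * A / x), 1 / (Nat.totient D : ℝ) * ∑ χ : DirichletCharacter ℂ D with R₁ < χ.conductor,
          ∑ b ∈ range K₃, ∑ j ∈ range (2 * (K₃ * K₄)), ‖Hc x K₃ K₄ lam b j χ‖ ^ 2) :=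
    mul_nonneg (Real.sqrt_nonneg _) (Real.sqrt_nonneg _)
  rw [mul_assoc] at g1 g2 ⊢
  generalize √(N * (N * A / x + 1) * (1 + (A : ℝ) ^ 2 * (K₃ * K₄) / x ^ 2)) *
      √(K₃ * ∑ D ∈ Icc 1 (2 * N * A / x), 1 / (Nat.totient D : ℝ) * ∑ χ : DirichletCharacter ℂ D with R₁ < χ.conductor,
          ∑ b ∈ range K₃, ∑ j ∈ range (2 * (K₃ * K₄)), ‖Hc x K₃ K₄ lam b j χ‖ ^ 2) = Y at g1 g2 g3 ⊢
  have g4 : (2 * √(C₁ * C₂ * C₃) + 1) * Y = √(C₁ * C₂ * C₃) * Y + √(C₁ * C₂ * C₃) * Y + Y := by ring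
  rw [g4]
  linarith

end Pool.Agent.FJ
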