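import Pool.Agent.helper95.FJ.SpecC

/-!
# Project fj (MP_ad8ced_nt), row PSM: pairs with small determinant
-/

set_option autoImplicit false

open Finset

noncomputable section

namespace Pool.Agent.FJ

open Pool.Agent.FI

theorem PSM_num (x N R A K₁ D n : ℕ) (hS : Siz x N R A) (hK : 1 ≤ K₁) (C₁ C₂ : ℝ) (h1 : 0 < C₁) (h2 : 0 < C₂)
    (hD : D * (K₁ * x) ≤ N * A) (hn : (n : ℝ) ≤ C₁ * N * (D + 1)) :
    (n : ℝ) * (C₂ * (R * ((A : ℝ) / √N + 1))) ≤ 100 * C₁ * C₂ * (N * A ^ 2 / K₁ + x * A) := by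
  obtain ⟨hx, hN, hR, hA, -, -, hRN, -, hNA⟩ := hS
  have hxr : (0 : ℝ) < x := by exact_mod_cast hx
  have hNr : (0 : ℝ) < N := by exact_mod_cast hN
  have hRr : (0 : ℝ) < R := by exact_mod_cast hR
  have hAr : (0 : ℝ) < A := by exact_mod_cast hA
  have hKr : (0 : ℝ) < K₁ := by exact_mod_cast hK
  have hs : 0 < √(N : ℝ) := Real.sqrt_pos.2 hNr
  have hs2 : √(N : ℝ) * √(N : ℝ) = N := Real.mul_self_sqrt hNr.le
  have hRs : (R : ℝ) * √(N : ℝ) ≤ 50 * x := by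
    have h3 : ((R : ℝ) * √(N : ℝ)) ^ 2 ≤ (50 * (x : ℝ)) ^ 2 := by
      have h4 : (R : ℝ) ^ 2 * N ≤ 2500 * (x : ℝ) ^ 2 := by exact_mod_cast hRN
      calc ((R : ℝ) * √(N : ℝ)) ^ 2 = (R : ℝ) ^ 2 * (√(N : ℝ) * √(N : ℝ)) := by ring
        _ = (R : ℝ) ^ 2 * N := by rw [hs2]
        _ ≤ 2500 * (x : ℝ) ^ 2 := h4
        _ = (50 * (x : ℝ)) ^ 2 := by ring
    exact (pow_le_pow_iff_left₀ (by positivity) (by positivity) (by norm_num)).1 h3
  have hsA : √(N : ℝ) ≤ A := by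
    rw [Real.sqrt_le_left hAr.le]
    exact_mod_cast hNA
  have h5 : (R : ℝ) * ((A : ℝ) / √N + 1) ≤ 100 * x * A / N := by
    have e1 : (R : ℝ) * ((A : ℝ) / √N + 1) = (R * √(N : ℝ)) * (A + √(N : ℝ)) / N := by
      rw [eq_div_iff hNr.ne']
      have e2 : (A : ℝ) / √N * N = A * √(N : ℝ) := by
        rw [div_mul_eq_mul_div, div_eq_iff hs.ne', mul_assoc, hs2]
      calc (R : ℝ) * ((A : ℝ) / √N + 1) * N = R * ((A : ℝ) / √N * N + N) := by ring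
        _ = R * (A * √(N : ℝ) + √(N : ℝ) * √(N : ℝ)) := by rw [e2, hs2]
        _ = (R * √(N : ℝ)) * (A + √(N : ℝ)) := by ring
    rw [e1]
    refine div_le_div_of_nonneg_right ?_ hNr.le
    calc (R * √(N : ℝ)) * (A + √(N : ℝ)) ≤ (50 * x) * (A + A) :=
          mul_le_mul hRs (by linarith) (by positivity) (by positivity)
      _ = 100 * x * A := by ring
  have h6 : (D : ℝ) ≤ N * A / (K₁ * x) := by
    rw [le_div_iff₀ (by positivity)]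
    exact_mod_cast hD
  have h7 : C₂ * (R * ((A : ℝ) / √N + 1)) ≤ C₂ * (100 * x * A / N) := mul_le_mul_of_nonneg_left h5 h2.le
  calc (n : ℝ) * (C₂ * (R * ((A : ℝ) / √N + 1))) ≤ (C₁ * N * (D + 1)) * (C₂ * (100 * x * A / N)) :=
        mul_le_mul hn h7 (by positivity) (by positivity)
    _ ≤ (C₁ * N * (N * A / (K₁ * x) + 1)) * (C₂ * (100 * x * A / N)) := by
        refine mul_le_mul_of_nonneg_right ?_ (by positivity)
        refine mul_le_mul_of_nonneg_left ?_ (by positivity)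
        linarith
    _ = 100 * C₁ * C₂ * (N * A ^ 2 / K₁ + x * A) := by
        field_simp

open scoped Classical in
theorem PSM (hPAI : PAI_stmt) (hBDZ : BDZ_stmt) : PSM_stmt := by
  obtain ⟨C₁, h1, hP⟩ := hPAI
  obtain ⟨C₂, h2, hB⟩ := hBDZ
  refine ⟨100 * C₁ * C₂, by positivity, fun x N R A K₁ hS hK => ?_⟩
  have hx : 1 ≤ x := hS.1
  have hN : 1 ≤ N := hS.2.1
  have hR : 1 ≤ R := hS.2.2.1
  have hKx : 0 < K₁ * x := Nat.mul_pos hK hx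
  obtain ⟨D, hD⟩ : ∃ D : ℕ, D = N * A / (K₁ * x) := ⟨_, rfl⟩
  obtain ⟨S, hSd⟩ : ∃ S : Finset ((ℤ × ℤ) × (ℤ × ℤ)),
    S = {p ∈ ZD N ×ˢ ZD N | K₁ * (x * (dl p.1 p.2).natAbs) ≤ N * A} := ⟨_, rfl⟩
  have hcard : (#S : ℝ) ≤ C₁ * N * (D + 1) := by
    refine le_trans ?_ (hP N D hN)
    rw [hSd]
    refine Nat.cast_le.2 (Finset.card_le_card fun p hp => ?_)
    rw [mem_filter] at hp ⊢
    refine ⟨hp.1, ?_⟩
    have h3 : (dl p.1 p.2).natAbs ≤ D := by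
      rw [hD, Nat.le_div_iff_mul_le hKx]
      calc (dl p.1 p.2).natAbs * (K₁ * x) = K₁ * (x * (dl p.1 p.2).natAbs) := by ring
        _ ≤ N * A := hp.2
    rw [← Int.natCast_natAbs]
    exact_mod_cast h3
  have hw : ∀ p ∈ S, (#{w ∈ Bx R | |ac p.1 w| ≤ A} : ℝ) ≤ C₂ * (R * ((A : ℝ) / √N + 1)) := by
    intro p hp
    rw [hSd, mem_filter, mem_product] at hp
    refine le_trans ?_ (hB N R hN hR p.1 hp.1.1 0 A (Nat.cast_nonneg A))
    refine Nat.cast_le.2 (Finset.card_le_card fun w hw => ?_)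
    rw [mem_filter] at hw ⊢
    refine ⟨hw.1, ?_⟩
    rw [Int.cast_zero, sub_zero]
    exact_mod_cast hw.2
  rw [← hSd]
  calc (∑ p ∈ S, (#{w ∈ Bx R | |ac p.1 w| ≤ A} : ℝ)) ≤ ∑ _p ∈ S, C₂ * (R * ((A : ℝ) / √N + 1)) :=
        Finset.sum_le_sum hw
    _ = (#S : ℝ) * (C₂ * (R * ((A : ℝ) / √N + 1))) := by rw [Finset.sum_const, nsmul_eq_mul]
    _ ≤ 100 * C₁ * C₂ * (N * A ^ 2 / K₁ + x * A) := by
        refine PSM_num x N R A K₁ D #S hS hK C₁ C₂ h1 h2 ?_ hcard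
        rw [hD]
        exact Nat.div_mul_le_self _ _

end Pool.Agent.FJ
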