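import Pool.Agent.helper95.FJ.SpecE
import Pool.Agent.helper52.FI.NPR

/-!
# Project fj (MP_ad8ced_nt), row TIN: type I sums (Abel summation as in helper31/FI/TI1.lean)
-/

set_option autoImplicit false

open Finset

noncomputable section

namespace Pool.Agent.FJ

open Pool.Agent.FI

/-- Abel's inequality -/
private theorem TIN_abel (f R : ℕ → ℝ) (a b : ℕ) (K : ℝ) (hab : a < b)
    (hR : ∀ n, a < n → n ≤ b → 0 ≤ R n) (hmono : ∀ n, a < n → n < b → R n ≤ R (n + 1))
    (hK : ∀ u, a ≤ u → u ≤ b → |∑ n ∈ Ioc a u, f n| ≤ K) :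
    |∑ n ∈ Ioc a b, f n * R n| ≤ 2 * K * R b := by
  have key : ∀ m, a + 1 ≤ m → m ≤ b →
      |(∑ n ∈ Ioc a m, f n) * R m - ∑ n ∈ Ioc a m, f n * R n| ≤ K * (R m - R (a + 1)) := by
    intro m hm
    induction m, hm using Nat.le_induction with
    | base =>
      intro _
      have e : Ioc a (a + 1) = {a + 1} := by
        ext n
        rw [mem_Ioc, mem_singleton]
        omega
      rw [e]
      simp
    | succ m hm ih =>
      intro hmb
      have h1 := ih (by omega)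
      have h2 := hK m (by omega) (by omega)
      have h3 := hmono m (by omega) (by omega)
      have e : Ioc a (m + 1) = insert (m + 1) (Ioc a m) := by
        ext n
        rw [mem_insert, mem_Ioc, mem_Ioc]
        omega
      have hnot : m + 1 ∉ Ioc a m := by
        rw [mem_Ioc]
        omega
      rw [e, sum_insert hnot, sum_insert hnot]
      have e2 : (f (m + 1) + ∑ n ∈ Ioc a m, f n) * R (m + 1) -
          (f (m + 1) * R (m + 1) + ∑ n ∈ Ioc a m, f n * R n) =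
          ((∑ n ∈ Ioc a m, f n) * R m - ∑ n ∈ Ioc a m, f n * R n) +
            (∑ n ∈ Ioc a m, f n) * (R (m + 1) - R m) := by ring
      rw [e2]
      refine (abs_add_le _ _).trans ?_
      rw [abs_mul (∑ n ∈ Ioc a m, f n), abs_of_nonneg (by linarith : 0 ≤ R (m + 1) - R m)]
      have h4 : |∑ n ∈ Ioc a m, f n| * (R (m + 1) - R m) ≤ K * (R (m + 1) - R m) :=
        mul_le_mul_of_nonneg_right h2 (by linarith)
      linarith
  have h1 := key b (by omega) le_rfl
  have h2 := hK b (by omega) le_rfl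
  have h3 := hR b (by omega) le_rfl
  have h4 := hR (a + 1) (by omega) (by omega)
  have hK0 : 0 ≤ K := (abs_nonneg _).trans h2
  have h5 : |(∑ n ∈ Ioc a b, f n) * R b| ≤ K * R b := by
    rw [abs_mul, abs_of_nonneg h3]
    exact mul_le_mul_of_nonneg_right h2 h3
  have h6 : K * (R b - R (a + 1)) ≤ K * R b := mul_le_mul_of_nonneg_left (by linarith) hK0
  have h7 := abs_le.mp h1
  have h8 := abs_le.mp h5
  rw [abs_le]
  constructor <;> linarith [h7.1, h7.2, h8.1, h8.2]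

private theorem TIN_cast (x u : ℕ) (F : ℤ → ℝ) :
    ∑ l ∈ Ioc (x : ℤ) (u : ℤ), F l = ∑ n ∈ Ioc x u, F (n : ℤ) := by
  have h : Ioc (x : ℤ) (u : ℤ) = (Ioc x u).map Nat.castEmbedding := by
    ext z
    simp only [mem_Ioc, mem_map, Nat.castEmbedding_apply]
    constructor
    · rintro ⟨h1, h2⟩
      exact ⟨z.toNat, ⟨by omega, by omega⟩, by omega⟩
    · rintro ⟨n, ⟨h1, h2⟩, rfl⟩
      exact ⟨by exact_mod_cast h1, by exact_mod_cast h2⟩
  rw [h, sum_map]
  rfl

/-- the norm as an integer -/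
private theorem TIN_nn (x : ℕ) (a l : ℤ) (ha : 1 ≤ a) (hax : a ≤ x) (hl : (x : ℤ) < l) :
    (nn (a, l) : ℤ) = 8 * l ^ 2 - a ^ 2 ∧ 1 ≤ nn (a, l) := by
  have h1 : a ^ 2 ≤ l ^ 2 := by nlinarith
  have h2 : 1 ≤ l ^ 2 := by nlinarith
  have h3 : N8 (a, l) = a ^ 2 - 8 * l ^ 2 := rfl
  have h4 : (nn (a, l) : ℤ) = 8 * l ^ 2 - a ^ 2 := by
    unfold nn
    omega
  exact ⟨h4, by omega⟩

/-- the logarithmic weight -/
private def TIN_w (h : ℕ) (a l : ℤ) : ℝ := Real.log ((8 * l ^ 2 - a ^ 2 : ℤ) : ℝ) ^ h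

private theorem TIN_wn (x : ℕ) (h : ℕ) (a l : ℤ) (ha : 1 ≤ a) (hax : a ≤ x) (hl : (x : ℤ) < l) :
    Real.log (nn (a, l)) ^ h = TIN_w h a l := by
  unfold TIN_w
  have h1 := (TIN_nn x a l ha hax hl).1
  have h2 : (nn (a, l) : ℝ) = ((8 * l ^ 2 - a ^ 2 : ℤ) : ℝ) := by
    rw [← h1]
    exact (Int.cast_natCast _).symm
  rw [h2]

private theorem TIN_logb (x : ℕ) (hx : 1 ≤ x) (a l : ℤ) (ha : 1 ≤ a) (hax : a ≤ x) (hl : (x : ℤ) < l)
    (hl2 : l ≤ 2 * x) (h : ℕ) (hh : h ≤ 1) :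
    0 ≤ TIN_w h a l ∧ TIN_w h a l ≤ 2 * Real.log x + 4 := by
  obtain ⟨h1, h2⟩ := TIN_nn x a l ha hax hl
  rw [← TIN_wn x h a l ha hax hl]
  have hx0 : (0 : ℝ) < x := by exact_mod_cast hx
  have hL : 0 ≤ Real.log x := Real.log_natCast_nonneg x
  have h3 : 0 ≤ Real.log (nn (a, l)) := Real.log_natCast_nonneg _
  refine ⟨pow_nonneg h3 h, ?_⟩
  have h4 : (nn (a, l) : ℝ) ≤ 32 * (x : ℝ) ^ 2 := by
    have h5 : (nn (a, l) : ℤ) ≤ 32 * (x : ℤ) ^ 2 := by
      rw [h1]
      nlinarith [sq_nonneg a]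
    exact_mod_cast h5
  have h5 : Real.log (nn (a, l)) ≤ 2 * Real.log x + 4 := by
    calc Real.log (nn (a, l)) ≤ Real.log (32 * (x : ℝ) ^ 2) :=
          Real.log_le_log (by exact_mod_cast h2) h4
      _ = Real.log 32 + 2 * Real.log x := by
          rw [Real.log_mul (by norm_num) (by positivity), Real.log_pow]
          push_cast
          ring
      _ ≤ 4 + 2 * Real.log x := by
          have h6 : Real.log 32 ≤ 4 := by
            have h7 : Real.log 32 = 5 * Real.log 2 := by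
              have : (32 : ℝ) = 2 ^ 5 := by norm_num
              rw [this, Real.log_pow]
              norm_num
            have := Real.log_two_lt_d9
            linarith
          linarith
      _ = 2 * Real.log x + 4 := by ring
  interval_cases h
  · rw [pow_zero]
    linarith
  · rw [pow_one]
    exact h5

private theorem TIN_inner (x : ℕ) (hx : 1 ≤ x) (a : ℤ) (ha : 1 ≤ a) (hax : a ≤ x) (lm : ℤ → ℝ) (S : ℝ)
    (h : ℕ) (hh : h ≤ 1) (hS : ∀ u : ℕ, x ≤ u → u ≤ 2 * x → |∑ l ∈ Ioc (x : ℤ) u, lm l| ≤ S) :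
    |∑ l ∈ Ioc (x : ℤ) (2 * x), lm l * TIN_w h a l| ≤ 2 * S * (2 * Real.log x + 4) := by
  have e1 : (2 * (x : ℤ)) = ((2 * x : ℕ) : ℤ) := by push_cast; rfl
  rw [e1, TIN_cast]
  have hS0 : 0 ≤ S := (abs_nonneg _).trans (hS x le_rfl (by omega))
  refine (TIN_abel (fun n => lm n) (fun n => TIN_w h a n) x (2 * x) S (by omega) ?_ ?_ ?_).trans ?_
  · intro n hn _
    show 0 ≤ TIN_w h a n
    rw [← TIN_wn x h a n ha hax (by exact_mod_cast hn)]
    exact pow_nonneg (Real.log_natCast_nonneg _) h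
  · intro n hn hn2
    show TIN_w h a n ≤ TIN_w h a ((n + 1 : ℕ) : ℤ)
    obtain ⟨h1, h2⟩ := TIN_nn x a n ha hax (by exact_mod_cast hn)
    obtain ⟨h3, h4⟩ := TIN_nn x a ((n + 1 : ℕ) : ℤ) ha hax (by push_cast; omega)
    rw [← TIN_wn x h a n ha hax (by exact_mod_cast hn), ← TIN_wn x h a ((n + 1 : ℕ) : ℤ) ha hax (by push_cast; omega)]
    have h5 : nn (a, (n : ℤ)) ≤ nn (a, ((n + 1 : ℕ) : ℤ)) := by
      have h6 : (nn (a, (n : ℤ)) : ℤ) ≤ (nn (a, ((n + 1 : ℕ) : ℤ)) : ℤ) := by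
        rw [h1, h3]
        push_cast
        nlinarith [Int.natCast_nonneg n]
      exact_mod_cast h6
    refine pow_le_pow_left₀ (Real.log_natCast_nonneg _) ?_ h
    refine Real.log_le_log (by exact_mod_cast h2) ?_
    exact_mod_cast h5
  · intro u hu1 hu2
    have h1 := hS u hu1 hu2
    rw [TIN_cast] at h1
    exact h1
  · refine mul_le_mul_of_nonneg_left ?_ (by positivity)
    refine (TIN_logb x hx a ((2 * x : ℕ) : ℤ) ha hax ?_ ?_ h hh).2
    · push_cast
      omega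
    · push_cast
      exact le_rfl

/-- sums over divisors of the integers in `(x, 2x]` -/
private theorem TIN_dv (x : ℕ) (f : ℕ → ℝ) (hf : ∀ g, 0 ≤ f g) :
    ∑ l ∈ Ioc (x : ℤ) (2 * x), ∑ g ∈ l.natAbs.divisors, f g ≤ ∑ g ∈ Icc 1 (2 * x), f g * ((x : ℝ) / g + 1) := by
  have h1 : ∀ l ∈ Ioc (x : ℤ) (2 * x), ∑ g ∈ l.natAbs.divisors, f g =
      ∑ g ∈ Icc 1 (2 * x), if (g : ℤ) ∣ l then f g else 0 := by
    intro l hl
    rw [mem_Ioc] at hl
    have hl0 : l.natAbs ≠ 0 := by omega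
    rw [← sum_filter]
    refine sum_congr ?_ fun _ _ => rfl
    ext g
    rw [Nat.mem_divisors, mem_filter, mem_Icc]
    constructor
    · rintro ⟨h2, -⟩
      have h3 := Nat.le_of_dvd (by omega) h2
      have h4 := Nat.pos_of_dvd_of_pos h2 (by omega)
      exact ⟨⟨h4, by omega⟩, Int.natCast_dvd.2 h2⟩
    · rintro ⟨-, h2⟩
      exact ⟨Int.natCast_dvd.1 h2, hl0⟩
  rw [sum_congr rfl h1, sum_comm]
  refine sum_le_sum fun g hg => ?_
  rw [mem_Icc] at hg
  rw [← sum_filter, sum_const, nsmul_eq_mul, mul_comm]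
  exact mul_le_mul_of_nonneg_left (NPR_l x g (by omega)) (hf g)

private theorem TIN_harm (n : ℕ) : ∑ g ∈ Icc 1 n, 1 / (g : ℝ) ≤ 1 + Real.log n := by
  have h := harmonic_le_one_add_log n
  rw [harmonic_eq_sum_Icc] at h
  push_cast at h
  simpa [one_div] using h

private theorem TIN_tau (x : ℕ) :
    ∑ l ∈ Ioc (x : ℤ) (2 * x), (#l.natAbs.divisors : ℝ) ≤ x * (1 + Real.log (2 * x)) + 2 * x := by
  have h1 := TIN_dv x (fun _ => 1) (fun _ => zero_le_one)
  have h2 : ∀ l ∈ Ioc (x : ℤ) (2 * x), (#l.natAbs.divisors : ℝ) = ∑ _g ∈ l.natAbs.divisors, (1 : ℝ) := by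
    intro l _
    rw [sum_const, nsmul_eq_mul, mul_one]
  rw [sum_congr rfl h2]
  refine h1.trans ?_
  have h3 : ∑ g ∈ Icc 1 (2 * x), (1 : ℝ) * ((x : ℝ) / g + 1) = x * (∑ g ∈ Icc 1 (2 * x), 1 / (g : ℝ)) + 2 * x := by
    rw [mul_sum]
    have : ∀ g ∈ Icc 1 (2 * x), (1 : ℝ) * ((x : ℝ) / g + 1) = x * (1 / (g : ℝ)) + 1 := by
      intro g _
      ring
    rw [sum_congr rfl this, sum_add_distrib, sum_const, Nat.card_Icc, nsmul_eq_mul]
    push_cast [Nat.add_sub_cancel]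
    ring
  rw [h3]
  have h4 := TIN_harm (2 * x)
  push_cast at h4
  have h5 := mul_le_mul_of_nonneg_left h4 (Nat.cast_nonneg (α := ℝ) x)
  linarith

private theorem TIN_gd (x Z : ℕ) (hx : 1 ≤ x) (hZ : 1 ≤ Z) :
    ∑ l ∈ Ioc (x : ℤ) (2 * x), ∑ g ∈ l.natAbs.divisors, (if Z < g then 1 / (g : ℝ) else 0) ≤
      x / Z + (1 + Real.log (2 * x)) := by
  refine (TIN_dv x (fun g => if Z < g then 1 / (g : ℝ) else 0) (fun g => ?_)).trans ?_
  · split_ifs
    · positivity
    · exact le_rfl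
  · have hx0 : (0 : ℝ) < x := by exact_mod_cast hx
    have h1 : ∀ g ∈ Icc 1 (2 * x), (if Z < g then 1 / (g : ℝ) else 0) * ((x : ℝ) / g + 1) ≤
        (if Z < g then (x : ℝ) * ((g : ℝ) ^ 2)⁻¹ else 0) + 1 / (g : ℝ) := by
      intro g hg
      rw [mem_Icc] at hg
      have hg0 : (0 : ℝ) < g := by exact_mod_cast (show 0 < g by omega)
      split_ifs
      · have : 1 / (g : ℝ) * ((x : ℝ) / g + 1) = (x : ℝ) * ((g : ℝ) ^ 2)⁻¹ + 1 / (g : ℝ) := by
          field_simp
        rw [this]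
      · rw [zero_mul, zero_add]
        positivity
    refine (sum_le_sum h1).trans ?_
    rw [sum_add_distrib]
    refine add_le_add ?_ ?_
    · rw [← sum_filter, ← mul_sum]
      have h2 : ∑ g ∈ (Icc 1 (2 * x)).filter (fun g => Z < g), ((g : ℝ) ^ 2)⁻¹ ≤ (Z : ℝ)⁻¹ := by
        rcases Nat.lt_or_ge (2 * x) Z with h3 | h3
        · have h4 : (Icc 1 (2 * x)).filter (fun g => Z < g) = ∅ := by
            rw [filter_eq_empty_iff]
            intro g hg
            rw [mem_Icc] at hg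
            omega
          rw [h4, sum_empty]
          positivity
        · have h4 : (Icc 1 (2 * x)).filter (fun g => Z < g) = Ioc Z (2 * x) := by
            ext g
            rw [mem_filter, mem_Icc, mem_Ioc]
            omega
          rw [h4]
          have h5 := sum_Ioc_inv_sq_le_sub (α := ℝ) (show Z ≠ 0 by omega) h3
          have h6 : (0 : ℝ) ≤ ((2 * x : ℕ) : ℝ)⁻¹ := by positivity
          linarith
      calc (x : ℝ) * _ ≤ x * (Z : ℝ)⁻¹ := mul_le_mul_of_nonneg_left h2 hx0.le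
        _ = x / Z := (div_eq_mul_inv _ _).symm
    · have h4 := TIN_harm (2 * x)
      push_cast at h4
      exact h4

/-- the number of prime factors -/
private theorem TIN_om (q : ℕ) (hq : 1 ≤ q) : (#q.primeFactors : ℝ) * Real.log 2 ≤ Real.log q := by
  have h1 : 2 ^ #q.primeFactors ≤ q := by
    calc 2 ^ #q.primeFactors ≤ ∏ p ∈ q.primeFactors, p :=
          pow_card_le_prod _ _ _ fun p hp => (Nat.prime_of_mem_primeFactors hp).two_le
      _ ≤ q := Nat.le_of_dvd hq (Nat.prod_primeFactors_dvd q)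
  rw [← Real.log_pow]
  refine Real.log_le_log (by positivity) ?_
  exact_mod_cast h1

open scoped Classical in
/-- rough integers with a common factor with `q` -/
private theorem TIN_bad (x Z : ℕ) (hZ : 1 ≤ Z) (lm : ℤ → ℝ) (M : ℝ) (hlam : LamOK x Z M lm) (q : ℕ) (hq : 1 ≤ q) :
    (#{l ∈ Ioc (x : ℤ) (2 * x) | lm l ≠ 0 ∧ ¬ IsCoprime l (q : ℤ)} : ℝ) ≤ #q.primeFactors * (x / Z + 1) := by
  have hsub : {l ∈ Ioc (x : ℤ) (2 * x) | lm l ≠ 0 ∧ ¬ IsCoprime l (q : ℤ)} ⊆
      (q.primeFactors.filter fun g => Z < g).biUnion fun g => (Ioc (x : ℤ) (2 * x)).filter fun l => (g : ℤ) ∣ l := by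
    intro l hl
    rw [mem_filter] at hl
    obtain ⟨hl1, hl2, hl3⟩ := hl
    have hg1 : Int.gcd l (q : ℤ) ≠ 1 := fun h => hl3 (Int.isCoprime_iff_gcd_eq_one.2 h)
    obtain ⟨g, hgp, hgd⟩ := Nat.exists_prime_and_dvd hg1
    have hd : (g : ℤ) ∣ (Int.gcd l (q : ℤ) : ℤ) := by exact_mod_cast hgd
    have hdl : (g : ℤ) ∣ l := hd.trans (Int.gcd_dvd_left ..)
    have hdq : (g : ℤ) ∣ (q : ℤ) := hd.trans (Int.gcd_dvd_right ..)
    have hdq' : g ∣ q := by exact_mod_cast hdq
    have hgZ : Z < g := by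
      by_contra h
      exact (hlam.2 l hl2).2.2 g hgp (by omega) hdl
    rw [mem_biUnion]
    refine ⟨g, ?_, ?_⟩
    · rw [mem_filter, Nat.mem_primeFactors]
      exact ⟨⟨hgp, hdq', by omega⟩, hgZ⟩
    · rw [mem_filter]
      exact ⟨hl1, hdl⟩
  have hZ0 : (0 : ℝ) < Z := by exact_mod_cast hZ
  refine (Nat.cast_le.2 ((card_le_card hsub).trans card_biUnion_le)).trans ?_
  rw [Nat.cast_sum]
  calc _ ≤ ∑ _g ∈ q.primeFactors.filter fun g => Z < g, ((x : ℝ) / Z + 1) := by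
        refine sum_le_sum fun g hg => ?_
        rw [mem_filter] at hg
        have hg0 : 0 < g := by omega
        refine (NPR_l x g hg0).trans ?_
        have : (x : ℝ) / g ≤ x / Z := by
          refine div_le_div_of_nonneg_left (Nat.cast_nonneg x) hZ0 ?_
          exact_mod_cast hg.2.le
        linarith
    _ = (#(q.primeFactors.filter fun g => Z < g) : ℝ) * ((x : ℝ) / Z + 1) := by
        rw [sum_const, nsmul_eq_mul]
    _ ≤ _ := by
        refine mul_le_mul_of_nonneg_right ?_ (by positivity)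
        exact_mod_cast card_filter_le _ _

open scoped Classical in
/-- the main term for one `a` -/
private theorem TIN_row (x Z : ℕ) (hx : 1 ≤ x) (hZ : 1 ≤ Z) (lm : ℤ → ℝ) (M S : ℝ) (hlam : LamOK x Z M lm)
    (h : ℕ) (hh : h ≤ 1) (hS : ∀ u : ℕ, x ≤ u → u ≤ 2 * x → |∑ l ∈ Ioc (x : ℤ) u, lm l| ≤ S)
    (q : ℕ) (hq : 1 ≤ q) (a : ℤ) (ha : 1 ≤ a) (hax : a ≤ x) :
    |∑ l ∈ Ioc (x : ℤ) (2 * x), (if IsCoprime l (q : ℤ) then lm l * TIN_w h a l else 0)| ≤
      (2 * S + M * (#q.primeFactors * (x / Z + 1))) * (2 * Real.log x + 4) := by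
  have hM : 0 ≤ M := (abs_nonneg _).trans (hlam.1 0)
  have hL : 0 ≤ Real.log x := Real.log_natCast_nonneg x
  have e : ∑ l ∈ Ioc (x : ℤ) (2 * x), (if IsCoprime l (q : ℤ) then lm l * TIN_w h a l else 0) =
      ∑ l ∈ Ioc (x : ℤ) (2 * x), lm l * TIN_w h a l -
      ∑ l ∈ Ioc (x : ℤ) (2 * x), (if lm l ≠ 0 ∧ ¬ IsCoprime l (q : ℤ) then lm l * TIN_w h a l else 0) := by
    rw [← sum_sub_distrib]
    refine sum_congr rfl fun l _ => ?_
    by_cases h1 : IsCoprime l (q : ℤ) <;> by_cases h2 : lm l = 0 <;> simp [h1, h2]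
  rw [e, add_mul]
  refine (abs_sub _ _).trans (add_le_add (TIN_inner x hx a ha hax lm S h hh hS) ?_)
  refine (abs_sum_le_sum_abs _ _).trans ?_
  have h1 : ∀ l ∈ Ioc (x : ℤ) (2 * x), |(if lm l ≠ 0 ∧ ¬ IsCoprime l (q : ℤ) then lm l * TIN_w h a l else 0)| ≤
      if lm l ≠ 0 ∧ ¬ IsCoprime l (q : ℤ) then M * (2 * Real.log x + 4) else 0 := by
    intro l hl
    rw [mem_Ioc] at hl
    split_ifs
    · have h2 := TIN_logb x hx a l ha hax hl.1 hl.2 h hh
      rw [abs_mul, abs_of_nonneg h2.1]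
      exact mul_le_mul (hlam.1 l) h2.2 h2.1 hM
    · rw [abs_zero]
  refine (sum_le_sum h1).trans ?_
  rw [← sum_filter, sum_const, nsmul_eq_mul]
  have h2 := TIN_bad x Z hZ lm M hlam q hq
  calc _ ≤ ((#q.primeFactors : ℝ) * (x / Z + 1)) * (M * (2 * Real.log x + 4)) :=
        mul_le_mul_of_nonneg_right h2 (by positivity)
    _ = _ := by ring

open scoped Classical in
/-- the inner sum -/
private def TIN_S (A q h : ℕ) (l : ℤ) : ℝ :=
  ∑ a ∈ Icc (1 : ℤ) A with (a % 2 = 1 ∧ IsCoprime a l ∧ (q : ℤ) ∣ a ^ 2 - 8 * l ^ 2), TIN_w h a l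

open scoped Classical in
private theorem TIN_swap (x A q h : ℕ) (hA : A ≤ x) (lm : ℤ → ℝ) :
    ∑ ζ ∈ PZ x A with q ∣ nn ζ, lm ζ.2 * Real.log (nn ζ) ^ h =
      ∑ l ∈ Ioc (x : ℤ) (2 * x), lm l * TIN_S A q h l := by
  unfold PZ
  rw [filter_filter, sum_filter, sum_product_right]
  refine sum_congr rfl fun l hl => ?_
  rw [mem_Ioc] at hl
  unfold TIN_S
  rw [mul_sum, sum_filter]
  refine sum_congr rfl fun a ha => ?_
  rw [mem_Icc] at ha
  have hax : a ≤ x := ha.2.trans (by exact_mod_cast hA)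
  obtain ⟨h1, h2⟩ := TIN_nn x a l ha.1 hax hl.1
  have h3 : q ∣ nn (a, l) ↔ (q : ℤ) ∣ a ^ 2 - 8 * l ^ 2 := by
    rw [← Int.natCast_dvd_natCast, h1, ← dvd_neg]
    have : -(8 * l ^ 2 - a ^ 2) = a ^ 2 - 8 * l ^ 2 := by ring
    rw [this]
  rw [TIN_wn x h a l ha.1 hax hl.1]
  refine if_congr ?_ rfl rfl
  rw [h3]
  exact and_assoc

open scoped Classical in
private theorem TIN_S0 (A q h : ℕ) (l : ℤ) (hl : ¬ IsCoprime l (q : ℤ)) : TIN_S A q h l = 0 := by
  unfold TIN_S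
  rw [filter_eq_empty_iff.2, sum_empty]
  rintro a - ⟨-, h2, h3⟩
  have hg1 : Int.gcd l (q : ℤ) ≠ 1 := fun h => hl (Int.isCoprime_iff_gcd_eq_one.2 h)
  obtain ⟨g, hgp, hgd⟩ := Nat.exists_prime_and_dvd hg1
  have hd : (g : ℤ) ∣ (Int.gcd l (q : ℤ) : ℤ) := by exact_mod_cast hgd
  have hdl : (g : ℤ) ∣ l := hd.trans (Int.gcd_dvd_left ..)
  have hdq : (g : ℤ) ∣ (q : ℤ) := hd.trans (Int.gcd_dvd_right ..)
  have h4 : (g : ℤ) ∣ a ^ 2 := by
    have h5 : a ^ 2 = (a ^ 2 - 8 * l ^ 2) + l * (8 * l) := by ring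
    rw [h5]
    exact dvd_add (hdq.trans h3) (Dvd.dvd.mul_right hdl _)
  have hgp' : Prime (g : ℤ) := Nat.prime_iff_prime_int.1 hgp
  have h5 : (g : ℤ) ∣ a := hgp'.dvd_of_dvd_pow h4
  exact hgp'.not_isUnit (h2.isUnit_of_dvd' h5 hdl)

open scoped Classical in
private theorem TIN_main (C : ℝ) (hC : 0 < C) (x A Z q h : ℕ) (hx : 2 ≤ x) (hA1 : 1 ≤ A) (hA : A ≤ x) (hZ : 2 ≤ Z)
    (hq : 1 ≤ q) (hh : h ≤ 1) (lm : ℤ → ℝ) (M S : ℝ) (hlam : LamOK x Z M lm)
    (hS : ∀ u : ℕ, x ≤ u → u ≤ 2 * x → |∑ l ∈ Ioc (x : ℤ) u, lm l| ≤ S)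
    (hT : ∀ l : ℤ, (x : ℤ) < l → l ≤ 2 * x → l % 2 = 1 → IsCoprime l (q : ℤ) →
      |TIN_S A q h l - rt q / (2 * q) * ∑ a ∈ Icc (1 : ℤ) A, TIN_w h a l| ≤
        C * (1 + Real.log x) * (rt q * (A / q * (∑ g ∈ l.natAbs.divisors with 1 < g, 1 / (g : ℝ)) + #l.natAbs.divisors))) :
    |∑ ζ ∈ PZ x A with q ∣ nn ζ, lm ζ.2 * Real.log (nn ζ) ^ h| ≤
      rt q / (2 * q) * (A * ((2 * S + M * (#q.primeFactors * (x / Z + 1))) * (2 * Real.log x + 4))) +
      M * (C * (1 + Real.log x) * (rt q * (A / q * (x / Z + (1 + Real.log (2 * x))) +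
        (x * (1 + Real.log (2 * x)) + 2 * x)))) := by
  have hM : 0 ≤ M := (abs_nonneg _).trans (hlam.1 0)
  have hL : 0 ≤ Real.log x := Real.log_natCast_nonneg x
  have hq0 : (0 : ℝ) < q := by exact_mod_cast hq
  rw [TIN_swap x A q h hA lm]
  have e : ∑ l ∈ Ioc (x : ℤ) (2 * x), lm l * TIN_S A q h l =
      rt q / (2 * q) * (∑ a ∈ Icc (1 : ℤ) A, ∑ l ∈ Ioc (x : ℤ) (2 * x), (if IsCoprime l (q : ℤ) then lm l * TIN_w h a l else 0)) +
      ∑ l ∈ Ioc (x : ℤ) (2 * x), (if IsCoprime l (q : ℤ) then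
        lm l * (TIN_S A q h l - rt q / (2 * q) * ∑ a ∈ Icc (1 : ℤ) A, TIN_w h a l) else 0) := by
    rw [sum_comm, mul_sum, ← sum_add_distrib]
    refine sum_congr rfl fun l _ => ?_
    by_cases h1 : IsCoprime l (q : ℤ)
    · simp only [h1, if_true]
      rw [← mul_sum]
      ring
    · simp only [h1, if_false, sum_const_zero, mul_zero, add_zero]
      rw [TIN_S0 A q h l h1, mul_zero]
  rw [e]
  refine (abs_add_le _ _).trans (add_le_add ?_ ?_)
  · rw [abs_mul, abs_of_nonneg (by positivity : (0 : ℝ) ≤ rt q / (2 * q))]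
    refine mul_le_mul_of_nonneg_left ?_ (by positivity)
    refine (abs_sum_le_sum_abs _ _).trans ?_
    calc _ ≤ ∑ _a ∈ Icc (1 : ℤ) A, (2 * S + M * (#q.primeFactors * (x / Z + 1))) * (2 * Real.log x + 4) := by
          refine sum_le_sum fun a ha => ?_
          rw [mem_Icc] at ha
          exact TIN_row x Z (by omega) (by omega) lm M S hlam h hh hS q hq a ha.1 (ha.2.trans (by exact_mod_cast hA))
      _ = _ := by
          rw [sum_const, nsmul_eq_mul, Int.card_Icc]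
          simp
  · refine (abs_sum_le_sum_abs _ _).trans ?_
    have h1 : ∀ l ∈ Ioc (x : ℤ) (2 * x), |(if IsCoprime l (q : ℤ) then
        lm l * (TIN_S A q h l - rt q / (2 * q) * ∑ a ∈ Icc (1 : ℤ) A, TIN_w h a l) else 0)| ≤
        M * (C * (1 + Real.log x) * (rt q * (A / q * (∑ g ∈ l.natAbs.divisors, (if Z < g then 1 / (g : ℝ) else 0)) +
          #l.natAbs.divisors))) := by
      intro l hl
      rw [mem_Ioc] at hl
      have hnn : 0 ≤ ∑ g ∈ l.natAbs.divisors, (if Z < g then 1 / (g : ℝ) else 0) := by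
        refine sum_nonneg fun g _ => ?_
        split_ifs
        · positivity
        · exact le_rfl
      have hR : 0 ≤ M * (C * (1 + Real.log x) * (rt q * (A / q * (∑ g ∈ l.natAbs.divisors, (if Z < g then 1 / (g : ℝ) else 0)) +
          #l.natAbs.divisors))) := by positivity
      by_cases h1 : IsCoprime l (q : ℤ)
      · rw [if_pos h1]
        by_cases h2 : lm l = 0
        · rw [h2, zero_mul, abs_zero]
          exact hR
        · have h3 := (hlam.2 l h2).2.2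
          have hodd : l % 2 = 1 := by
            have h4 := h3 2 Nat.prime_two hZ
            have h5 : ¬ (2 : ℤ) ∣ l := by exact_mod_cast h4
            omega
          have hgs : ∑ g ∈ l.natAbs.divisors with 1 < g, 1 / (g : ℝ) ≤
              ∑ g ∈ l.natAbs.divisors, (if Z < g then 1 / (g : ℝ) else 0) := by
            rw [sum_filter]
            refine sum_le_sum fun g hg => ?_
            by_cases h6 : 1 < g
            · rw [if_pos h6, if_pos]
              obtain ⟨p, hp, hpg⟩ := Nat.exists_prime_and_dvd (show g ≠ 1 by omega)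
              have h7 : (p : ℤ) ∣ l := Int.natCast_dvd.2 (hpg.trans (Nat.dvd_of_mem_divisors hg))
              have h8 : Z < p := by
                by_contra h9
                exact h3 p hp (by omega) h7
              exact lt_of_lt_of_le h8 (Nat.le_of_dvd (by omega) hpg)
            · rw [if_neg h6]
              split_ifs
              · positivity
              · exact le_rfl
          rw [abs_mul]
          refine mul_le_mul (hlam.1 l) ((hT l hl.1 hl.2 hodd h1).trans ?_) (abs_nonneg _) hM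
          refine mul_le_mul_of_nonneg_left ?_ (by positivity)
          refine mul_le_mul_of_nonneg_left ?_ (by positivity)
          have h9 : (0 : ℝ) ≤ A / q := by positivity
          linarith [mul_le_mul_of_nonneg_left hgs h9]
      · rw [if_neg h1, abs_zero]
        exact hR
    refine (sum_le_sum h1).trans ?_
    rw [← mul_sum, ← mul_sum, ← mul_sum, sum_add_distrib, ← mul_sum]
    refine mul_le_mul_of_nonneg_left ?_ hM
    refine mul_le_mul_of_nonneg_left ?_ (by positivity)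
    refine mul_le_mul_of_nonneg_left ?_ (by positivity)
    refine add_le_add ?_ (TIN_tau x)
    exact mul_le_mul_of_nonneg_left (TIN_gd x Z (by omega) (by omega)) (by positivity)

private theorem TIN_num (C : ℝ) (hC : 0 < C) (B : ℕ) (x A Z q k : ℕ) (r L : ℝ) (hL : L = Real.log x)
    (hx : (1000 : ℝ) ≤ x) (hL1 : 100 + 32 * C ≤ L) (hLx : L ^ (B + 4) ≤ x) (hZ : L ^ (B + 4) ≤ Z) (hq : 0 < q)
    (hr : 0 ≤ r) (hk : (k : ℝ) ≤ 4 * L) :
    r / (2 * q) * (A * ((2 * (x / L ^ (B + 4)) + 2 * L * (k * (x / Z + 1))) * (2 * L + 4))) +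
      2 * L * (C * (1 + L) * (r * (A / q * (x / Z + (1 + Real.log (2 * x))) +
        (x * (1 + Real.log (2 * x)) + 2 * x)))) ≤ r * (A * x / (q * L ^ B) + x * L ^ 5) := by
  have hx0 : (0 : ℝ) < x := by linarith
  have hq0 : (0 : ℝ) < q := by exact_mod_cast hq
  have hL0 : 0 < L := by linarith
  have hE0 : 0 < L ^ (B + 4) := by positivity
  have hlog : 1 + Real.log (2 * x) ≤ 2 * L := by
    rw [Real.log_mul (by norm_num) hx0.ne', ← hL]
    have := Real.log_two_lt_d9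
    linarith
  have hlog0 : 0 ≤ 1 + Real.log (2 * x) := by
    have : 0 ≤ Real.log (2 * x) := Real.log_nonneg (by linarith)
    linarith
  obtain ⟨y, hy⟩ : ∃ y : ℝ, y = x / L ^ (B + 4) := ⟨_, rfl⟩
  have hy1 : 1 ≤ y := by rw [hy, le_div_iff₀ hE0, one_mul]; exact hLx
  have hZy : (x : ℝ) / Z ≤ y := by rw [hy]; exact div_le_div_of_nonneg_left hx0.le hE0 hZ
  rw [← hy]
  have hyB : (x : ℝ) / L ^ B = y * L ^ 4 := by
    rw [hy, pow_add]
    field_simp
  have t1 : r / (2 * q) * (A * ((2 * y + 2 * L * (k * (x / Z + 1))) * (2 * L + 4))) ≤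
      r * (A / q) * (y * (27 * L ^ 3)) := by
    have e1 : r / (2 * q) * (A * ((2 * y + 2 * L * (k * (x / Z + 1))) * (2 * L + 4))) =
        r * (A / q) * ((y + L * (k * (x / Z + 1))) * (2 * L + 4)) := by
      field_simp
    rw [e1]
    refine mul_le_mul_of_nonneg_left ?_ (by positivity)
    have h1 : (k : ℝ) * (x / Z + 1) ≤ 4 * L * (2 * y) :=
      mul_le_mul hk (by linarith) (by positivity) (by positivity)
    have h2 : L * (k * (x / Z + 1)) ≤ L * (4 * L * (2 * y)) := mul_le_mul_of_nonneg_left h1 hL0.le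
    calc (y + L * (k * (x / Z + 1))) * (2 * L + 4) ≤ (y + L * (4 * L * (2 * y))) * (3 * L) :=
          mul_le_mul (by linarith) (by linarith) (by positivity) (by positivity)
      _ = y * (3 * L + 24 * L ^ 3) := by ring
      _ ≤ y * (27 * L ^ 3) := by
          refine mul_le_mul_of_nonneg_left ?_ (by linarith)
          nlinarith [pow_pos hL0 2, pow_pos hL0 3]
  have t2 : 2 * L * (C * (1 + L) * (r * (A / q * (x / Z + (1 + Real.log (2 * x))) +
        (x * (1 + Real.log (2 * x)) + 2 * x)))) ≤ r * (A / q) * (y * (12 * C * L ^ 3)) + r * (x * (12 * C * L ^ 3)) := by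
    have e1 : 2 * L * (C * (1 + L) * (r * (A / q * (x / Z + (1 + Real.log (2 * x))) +
        (x * (1 + Real.log (2 * x)) + 2 * x)))) = (2 * L * (C * (1 + L)) * r) * (A / q * (x / Z + (1 + Real.log (2 * x))) +
        (x * (1 + Real.log (2 * x)) + 2 * x)) := by ring
    rw [e1]
    have h1 : 2 * L * (C * (1 + L)) * r ≤ 4 * C * L ^ 2 * r := by
      refine mul_le_mul_of_nonneg_right ?_ hr
      nlinarith [mul_nonneg (mul_nonneg hC.le hL0.le) (show 0 ≤ L - 1 by linarith)]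
    have h2 : (A : ℝ) / q * (x / Z + (1 + Real.log (2 * x))) + (x * (1 + Real.log (2 * x)) + 2 * x) ≤
        A / q * (3 * L * y) + x * (3 * L) := by
      refine add_le_add (mul_le_mul_of_nonneg_left ?_ (by positivity)) ?_
      · nlinarith
      · nlinarith
    calc _ ≤ (4 * C * L ^ 2 * r) * (A / q * (3 * L * y) + x * (3 * L)) :=
          mul_le_mul h1 h2 (by positivity) (by positivity)
      _ = _ := by ring
  have h3 : (A : ℝ) * x / (q * L ^ B) = A / q * (y * L ^ 4) := by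
    rw [← hyB]
    field_simp
  rw [h3]
  have h4 : y * (27 * L ^ 3) + y * (12 * C * L ^ 3) ≤ y * L ^ 4 := by
    have e1 : y * (27 * L ^ 3) + y * (12 * C * L ^ 3) = y * ((27 + 12 * C) * L ^ 3) := by ring
    have e2 : y * L ^ 4 = y * (L * L ^ 3) := by ring
    rw [e1, e2]
    refine mul_le_mul_of_nonneg_left ?_ (by linarith)
    exact mul_le_mul_of_nonneg_right (by linarith) (by positivity)
  have h5 : (x : ℝ) * (12 * C * L ^ 3) ≤ x * L ^ 5 := by
    refine mul_le_mul_of_nonneg_left ?_ hx0.le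
    have e2 : L ^ 5 = (L * L) * L ^ 3 := by ring
    rw [e2]
    refine mul_le_mul_of_nonneg_right ?_ (by positivity)
    nlinarith
  calc _ ≤ r * (A / q) * (y * (27 * L ^ 3)) + (r * (A / q) * (y * (12 * C * L ^ 3)) + r * (x * (12 * C * L ^ 3))) :=
        add_le_add t1 t2
    _ = r * (A / q) * (y * (27 * L ^ 3) + y * (12 * C * L ^ 3)) + r * (x * (12 * C * L ^ 3)) := by ring
    _ ≤ r * (A / q) * (y * L ^ 4) + r * (x * L ^ 5) :=
        add_le_add (mul_le_mul_of_nonneg_left h4 (by positivity)) (mul_le_mul_of_nonneg_left h5 hr)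
    _ = r * (A / q * (y * L ^ 4) + x * L ^ 5) := by ring

theorem TIN (hTIA : TIA_stmt) : TIN_stmt := by
  obtain ⟨C, hC, hT⟩ := hTIA
  intro B
  have ev1 : ∀ᶠ n : ℕ in Filter.atTop, 100 + 32 * C ≤ Real.log n :=
    (Real.tendsto_log_atTop.comp tendsto_natCast_atTop_atTop).eventually_ge_atTop _
  have ev2 : ∀ᶠ n : ℕ in Filter.atTop, Real.log n ^ (B + 4) ≤ n := by
    have h1 := (Real.isLittleO_pow_log_id_atTop (n := B + 4)).bound (show (0 : ℝ) < 1 by norm_num)
    have h2 := tendsto_natCast_atTop_atTop (R := ℝ).eventually h1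
    filter_upwards [h2] with n hn
    rw [one_mul] at hn
    exact (le_abs_self _).trans (hn.trans_eq (by simp))
  obtain ⟨x₁, hx₁⟩ := Filter.eventually_atTop.1 (ev1.and ev2)
  refine ⟨B + 4, max x₁ 1000, ?_⟩
  intro x hx Z lm hZ hlam hSA A hA1 hA q hodd hq h hh
  have hxa : x₁ ≤ x := (le_max_left _ _).trans hx
  have hxb : 1000 ≤ x := (le_max_right _ _).trans hx
  obtain ⟨hL1, hLx⟩ := hx₁ x hxa
  have hxR : (1000 : ℝ) ≤ x := by exact_mod_cast hxb
  have hx0 : (0 : ℝ) < x := by linarith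
  obtain ⟨L, hL⟩ : ∃ L : ℝ, L = Real.log x := ⟨_, rfl⟩
  have hq1 : 1 ≤ q := hodd.pos
  have hq0 : (0 : ℝ) < q := by exact_mod_cast hq1
  have hZ2 : 2 ≤ Z := by
    have h1 : (2 : ℝ) ≤ Z := by
      refine le_trans ?_ hZ
      calc (2 : ℝ) ≤ Real.log x ^ 1 := by rw [pow_one]; linarith
        _ ≤ Real.log x ^ (B + 4) := pow_le_pow_right₀ (by linarith) (by omega)
    exact_mod_cast h1
  have hS : ∀ u : ℕ, x ≤ u → u ≤ 2 * x → |∑ l ∈ Ioc (x : ℤ) u, lm l| ≤ x / Real.log x ^ (B + 4) := by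
    intro u h1 h2
    have h3 := hSA 1 le_rfl (by norm_num) 0 u h1 h2
    rw [filter_true_of_mem (fun l _ => by
      rw [Nat.cast_one]
      exact one_dvd _)] at h3
    exact h3
  have hmain := TIN_main C hC x A Z q h (by omega) hA1 hA hZ2 hq1 hh lm (2 * Real.log x) (x / Real.log x ^ (B + 4))
    hlam hS (fun l h1 h2 h3 h4 => hT x A (by omega) hA1 hA q hodd l h1 h2 h3 h4 h hh)
  refine hmain.trans ?_
  rw [← hL] at hL1 hLx hZ ⊢
  refine TIN_num C hC B x A Z q #q.primeFactors (rt q) L hL hxR hL1 hLx hZ hq1 (Nat.cast_nonneg _) ?_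
  have h1 := TIN_om q hq1
  have h2 : Real.log q ≤ Real.log 32 + 2 * L := by
    calc Real.log q ≤ Real.log (32 * (x : ℝ) ^ 2) := Real.log_le_log hq0 (by exact_mod_cast hq)
      _ = Real.log 32 + 2 * L := by
          rw [Real.log_mul (by norm_num) (by positivity), Real.log_pow, hL]
          push_cast
          ring
  have h6 : Real.log 32 = 5 * Real.log 2 := by
    have : (32 : ℝ) = 2 ^ 5 := by norm_num
    rw [this, Real.log_pow]
    norm_num
  have h7 := Real.log_two_gt_d9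
  have h8 := Real.log_two_lt_d9
  by_contra hcon
  push Not at hcon
  have h9 : 4 * L * Real.log 2 < #q.primeFactors * Real.log 2 := mul_lt_mul_of_pos_right hcon (by linarith)
  nlinarith

end Pool.Agent.FJ
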